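import Pool.Agent.Y500.R10.AFW

/-!
# Uniform bounds for the normalised incomplete gamma function

Project R11 of helper766, job AFS (by helper739), after `Pool.Agent.Y500.R10` (helper500).
-/

set_option autoImplicit false

namespace Pool.Agent.Y739.R11

open MeasureTheory Set Filter Topology
open Pool.Agent.Y500.R10

theorem gamma_bd (T : ℝ) : ∃ M : ℝ, 1 ≤ M ∧ ∀ b : ℂ, 1 / 8 ≤ b.re → b.re ≤ 1 → |b.im| ≤ T →
    ‖Complex.Gamma b‖ ≤ M ∧ ‖(Complex.Gamma b)⁻¹‖ ≤ M := by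
  have hK : IsCompact (Icc (1 / 8 : ℝ) 1 ×ℂ Icc (-T) T) := isCompact_Icc.reProdIm isCompact_Icc
  have h1 : ContinuousOn Complex.Gamma (Icc (1 / 8 : ℝ) 1 ×ℂ Icc (-T) T) := by
    intro b hb
    rw [Complex.mem_reProdIm] at hb
    refine (Complex.differentiableAt_Gamma b ?_).continuousAt.continuousWithinAt
    intro m hm
    have h1 : b.re = -m := by rw [hm]; simp
    have h2 := hb.1.1
    have h3 : (0 : ℝ) ≤ m := Nat.cast_nonneg m
    linarith
  have h2 : ContinuousOn (fun b => (Complex.Gamma b)⁻¹) (Icc (1 / 8 : ℝ) 1 ×ℂ Icc (-T) T) :=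
    Complex.differentiable_one_div_Gamma.continuous.continuousOn
  obtain ⟨M1, hM1⟩ := hK.exists_bound_of_continuousOn h1
  obtain ⟨M2, hM2⟩ := hK.exists_bound_of_continuousOn h2
  refine ⟨max 1 (max M1 M2), le_max_left _ _, fun b h3 h4 h5 => ?_⟩
  have hb : b ∈ Icc (1 / 8 : ℝ) 1 ×ℂ Icc (-T) T := by
    rw [Complex.mem_reProdIm]
    exact ⟨⟨h3, h4⟩, abs_le.1 h5⟩
  exact ⟨(hM1 b hb).trans ((le_max_left _ _).trans (le_max_right _ _)),
    (hM2 b hb).trans ((le_max_right _ _).trans (le_max_right _ _))⟩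

theorem int_e (r : ℝ) (hr : 0 < r) :
    IntegrableOn (fun u : ℝ => u ^ (r - 1) * Real.exp (-(1 / 2) * u)) (Ioi 0) := by
  have h := integrableOn_rpow_mul_exp_neg_mul_rpow (p := 1) (s := r - 1) (b := 1 / 2)
    (by linarith) one_pos (by norm_num)
  simpa using h

theorem qg_bd (T : ℝ) : ∃ Cb : ℝ, 0 < Cb ∧ ∀ b : ℂ, 1 / 8 ≤ b.re → b.re ≤ 1 → |b.im| ≤ T →
    ∀ x : ℝ, 0 ≤ x → ‖qg b x‖ ≤ Cb * Real.exp (-(x / 2)) := by
  obtain ⟨M, hM1, hM⟩ := gamma_bd T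
  obtain ⟨H, hH⟩ : ∃ H : ℝ → ℝ, H = fun u => u ^ ((1 / 8 : ℝ) - 1) * Real.exp (-(1 / 2) * u) +
    u ^ ((1 : ℝ) - 1) * Real.exp (-(1 / 2) * u) := ⟨_, rfl⟩
  have hHi : IntegrableOn H (Ioi 0) := by
    rw [hH]
    exact (int_e (1 / 8) (by norm_num)).add (int_e 1 one_pos)
  have hH0 : ∀ u, 0 < u → 0 ≤ H u := by
    intro u hu
    rw [hH]
    positivity
  obtain ⟨I, hI⟩ : ∃ I, I = ∫ u in Ioi (0 : ℝ), H u := ⟨_, rfl⟩
  have hI0 : 0 ≤ I := by
    rw [hI]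
    exact setIntegral_nonneg measurableSet_Ioi fun u hu => hH0 u hu
  refine ⟨(I + 1) * M, by positivity, fun b h3 h4 h5 x hx => ?_⟩
  have hb : 0 < b.re := by linarith
  have hHx : IntegrableOn H (Ioi x) := hHi.mono_set (Ioi_subset_Ioi hx)
  have hkey : ‖∫ u in Ioi x, (u : ℂ) ^ (b - 1) * (Real.exp (-u) : ℂ)‖ ≤
      (I + 1) * Real.exp (-(x / 2)) := by
    calc ‖∫ u in Ioi x, (u : ℂ) ^ (b - 1) * (Real.exp (-u) : ℂ)‖
        ≤ ∫ u in Ioi x, ‖(u : ℂ) ^ (b - 1) * (Real.exp (-u) : ℂ)‖ :=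
          norm_integral_le_integral_norm _
      _ ≤ ∫ u in Ioi x, Real.exp (-(x / 2)) * H u := by
          refine setIntegral_mono_on ((int_f b hb).mono_set (Ioi_subset_Ioi hx)).norm
            (hHx.const_mul _) measurableSet_Ioi fun u hu => ?_
          have hu0 : 0 < u := lt_of_le_of_lt hx hu
          rw [norm_f b u hu0]
          have h1 : Real.exp (-u) = Real.exp (-(u / 2)) * Real.exp (-(1 / 2) * u) := by
            rw [← Real.exp_add]
            congr 1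
            ring
          have h2 : Real.exp (-(u / 2)) ≤ Real.exp (-(x / 2)) :=
            Real.exp_le_exp.2 (by have : x < u := hu; linarith)
          have h6 : u ^ (b.re - 1) ≤ u ^ ((1 / 8 : ℝ) - 1) + u ^ ((1 : ℝ) - 1) := by
            have g1 : 0 ≤ u ^ ((1 / 8 : ℝ) - 1) := Real.rpow_nonneg hu0.le _
            have g2 : 0 ≤ u ^ ((1 : ℝ) - 1) := Real.rpow_nonneg hu0.le _
            rcases le_total u 1 with h | h
            · exact (Real.rpow_le_rpow_of_exponent_ge hu0 h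
                (show (1 / 8 : ℝ) - 1 ≤ b.re - 1 by linarith)).trans (le_add_of_nonneg_right g2)
            · exact (Real.rpow_le_rpow_of_exponent_le h
                (show b.re - 1 ≤ (1 : ℝ) - 1 by linarith)).trans (le_add_of_nonneg_left g1)
          have h7 : H u = (u ^ ((1 / 8 : ℝ) - 1) + u ^ ((1 : ℝ) - 1)) *
              Real.exp (-(1 / 2) * u) := by
            rw [hH]
            ring
          rw [h1, h7]
          have h8 : 0 ≤ u ^ ((1 / 8 : ℝ) - 1) + u ^ ((1 : ℝ) - 1) := by positivity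
          calc u ^ (b.re - 1) * (Real.exp (-(u / 2)) * Real.exp (-(1 / 2) * u))
              ≤ (u ^ ((1 / 8 : ℝ) - 1) + u ^ ((1 : ℝ) - 1)) *
                (Real.exp (-(x / 2)) * Real.exp (-(1 / 2) * u)) := by
                gcongr
            _ = _ := by ring
      _ = Real.exp (-(x / 2)) * ∫ u in Ioi x, H u := integral_const_mul _ _
      _ ≤ Real.exp (-(x / 2)) * I := by
          refine mul_le_mul_of_nonneg_left ?_ (Real.exp_pos _).le
          rw [hI]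
          refine setIntegral_mono_set hHi ?_ (Ioi_subset_Ioi hx).eventuallyLE
          exact (ae_restrict_iff' measurableSet_Ioi).2 (Eventually.of_forall fun u hu => hH0 u hu)
      _ ≤ (I + 1) * Real.exp (-(x / 2)) := by nlinarith [Real.exp_pos (-(x / 2))]
  rw [qg, div_eq_mul_inv, norm_mul]
  calc _ ≤ ((I + 1) * Real.exp (-(x / 2))) * M :=
        mul_le_mul hkey (hM b h3 h4 h5).2 (norm_nonneg _) (by positivity)
    _ = _ := by ring

theorem qg_sub_one (b : ℂ) (hb : 1 / 8 ≤ b.re) (M : ℝ) (hM : ‖(Complex.Gamma b)⁻¹‖ ≤ M) (x : ℝ)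
    (hx : 0 ≤ x) : ‖qg b x - 1‖ ≤ 8 * M * x ^ b.re := by
  have hb0 : 0 < b.re := by linarith
  have hG : Complex.Gamma b ≠ 0 := Complex.Gamma_ne_zero_of_re_pos hb0
  obtain ⟨f, hf⟩ : ∃ f : ℝ → ℂ, f = fun u : ℝ => (u : ℂ) ^ (b - 1) * (Real.exp (-u) : ℂ) :=
    ⟨_, rfl⟩
  have hfi : IntegrableOn f (Ioi 0) := by rw [hf]; exact int_f b hb0
  have hfG : ∫ u in Ioi (0 : ℝ), f u = Complex.Gamma b := by rw [hf]; exact gamma_eq b hb0
  have hsplit : ∫ u in Ioi (0 : ℝ), f u = (∫ u in Ioc 0 x, f u) + ∫ u in Ioi x, f u := by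
    rw [← setIntegral_union (Ioc_disjoint_Ioi le_rfl) measurableSet_Ioi
      (hfi.mono_set Ioc_subset_Ioi_self) (hfi.mono_set (Ioi_subset_Ioi hx)),
      Ioc_union_Ioi_eq_Ioi hx]
  have h1 : qg b x - 1 = -(∫ u in Ioc 0 x, f u) * (Complex.Gamma b)⁻¹ := by
    have h0 : qg b x = (∫ u in Ioi x, f u) / Complex.Gamma b := by rw [hf]; rfl
    rw [hfG] at hsplit
    have h2 : ∫ u in Ioi x, f u = Complex.Gamma b - ∫ u in Ioc 0 x, f u := by
      rw [hsplit]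
      ring
    rw [h0, h2]
    field_simp
    ring
  have h3 : ‖∫ u in Ioc 0 x, f u‖ ≤ 8 * x ^ b.re := by
    have hi : IntegrableOn (fun u : ℝ => u ^ (b.re - 1)) (Ioc 0 x) := by
      have h4 := intervalIntegral.intervalIntegrable_rpow' (a := 0) (b := x) (r := b.re - 1)
        (by linarith)
      rwa [intervalIntegrable_iff_integrableOn_Ioc_of_le hx] at h4
    calc ‖∫ u in Ioc 0 x, f u‖ ≤ ∫ u in Ioc 0 x, u ^ (b.re - 1) := by
          refine norm_integral_le_of_norm_le hi ?_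
          refine (ae_restrict_iff' measurableSet_Ioc).2 (Eventually.of_forall fun u hu => ?_)
          rw [hf]
          simp only
          rw [norm_f b u hu.1]
          have h5 : Real.exp (-u) ≤ 1 := Real.exp_le_one_iff.2 (by linarith [hu.1])
          have h6 : 0 ≤ u ^ (b.re - 1) := Real.rpow_nonneg hu.1.le _
          nlinarith
      _ = x ^ b.re / b.re := by
          rw [← intervalIntegral.integral_of_le hx, integral_rpow (Or.inl (by linarith)),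
            sub_add_cancel, Real.zero_rpow hb0.ne', sub_zero]
      _ ≤ 8 * x ^ b.re := by
          rw [div_le_iff₀ hb0]
          have : 0 ≤ x ^ b.re := Real.rpow_nonneg hx _
          nlinarith
  rw [h1, norm_mul, norm_neg]
  calc _ ≤ (8 * x ^ b.re) * M := mul_le_mul h3 hM (norm_nonneg _) (by positivity)
    _ = _ := by ring

/-- The weight is close to `1` for small arguments. -/
theorem GG_near (a : ℂ) (ha : 0 < a.re) (q ρ : ℝ) (hq : 1 < q) (hρ : 0 < ρ) (hρ1 : ρ ≤ 1 / 100)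
    (v : ℝ) (hv : v ≤ 1 / 4) (ε : ℝ)
    (hε : ∀ z, |(v - 1 / 2) / ρ - z| < 1 → ‖KK a q ρ z - 1‖ ≤ ε)
    (Φ : ℝ → ℝ) (hΦ : Continuous Φ)
    (hΦc : HasCompactSupport Φ) (hΦn : ∀ x, 0 ≤ Φ x) (hΦ0 : ∀ x, 1 ≤ |x| → Φ x = 0)
    (hΦ1 : ∫ x, Φ x = 1) : ‖GG a q ρ Φ v - 1‖ ≤ ε := by
  have hq0 : 0 < q := by linarith
  obtain ⟨u, hu⟩ : ∃ u, u = (v - 1 / 2) / ρ := ⟨_, rfl⟩
  have hu1 : u ≤ -25 := by
    rw [hu, div_le_iff₀ hρ]
    linarith
  unfold GG
  rw [← hu] at hε ⊢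
  have hΦi : Integrable Φ := hΦ.integrable_of_hasCompactSupport hΦc
  have hΦui : Integrable (fun z => Φ (u - z)) := hΦi.comp_sub_left u
  have hcs : HasCompactSupport (fun z => KK a q ρ z * (Φ (u - z) : ℂ)) := by
    refine HasCompactSupport.intro (isCompact_Icc (a := u - 1) (b := u + 1)) fun z hz => ?_
    rw [hΦ0 (u - z), Complex.ofReal_zero, mul_zero]
    by_contra h
    push Not at h
    rw [abs_lt] at h
    exact hz ⟨by linarith, by linarith⟩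
  have i1 : Integrable (fun z => KK a q ρ z * (Φ (u - z) : ℂ)) := by
    refine Continuous.integrable_of_hasCompactSupport ?_ hcs
    exact (KK_cont a ha q ρ hq0).mul (Complex.continuous_ofReal.comp
      (hΦ.comp (continuous_const.sub continuous_id)))
  have e2 : (fun z => Kt a q ρ z * (Φ (u - z) : ℂ)) = fun z => KK a q ρ z * (Φ (u - z) : ℂ) := by
    funext z
    by_cases h : z ∈ Iic (2 : ℝ)
    · have h1 : Kt a q ρ z = KK a q ρ z := indicator_of_mem h _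
      rw [h1]
    · have h3 : 2 < z := not_le.1 h
      rw [hΦ0 (u - z), Complex.ofReal_zero, mul_zero, mul_zero]
      rw [abs_of_nonpos (by linarith)]
      linarith
  rw [e2]
  have i3 : Integrable (fun z => (Φ (u - z) : ℂ)) := hΦui.ofReal
  have e3 : ∫ z, (Φ (u - z) : ℂ) = 1 := by
    rw [integral_complex_ofReal, integral_sub_left_eq_self Φ volume u, hΦ1, Complex.ofReal_one]
  have e4 : (∫ z, KK a q ρ z * (Φ (u - z) : ℂ)) - 1 =
      ∫ z, (KK a q ρ z * (Φ (u - z) : ℂ) - (Φ (u - z) : ℂ)) := by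
    rw [integral_sub i1 i3, e3]
  rw [e4]
  calc ‖∫ z, (KK a q ρ z * (Φ (u - z) : ℂ) - (Φ (u - z) : ℂ))‖
      ≤ ∫ z, ε * Φ (u - z) := by
        refine norm_integral_le_of_norm_le (hΦui.const_mul _) (Eventually.of_forall fun z => ?_)
        have e5 : KK a q ρ z * (Φ (u - z) : ℂ) - (Φ (u - z) : ℂ) =
            (KK a q ρ z - 1) * (Φ (u - z) : ℂ) := by ring
        rw [e5, norm_mul, Complex.norm_real, Real.norm_eq_abs, abs_of_nonneg (hΦn _)]
        by_cases h2 : 1 ≤ |u - z|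
        · rw [hΦ0 _ h2, mul_zero, mul_zero]
        · exact mul_le_mul_of_nonneg_right (hε z (not_le.1 h2)) (hΦn _)
    _ = ε := by
        rw [integral_const_mul, integral_sub_left_eq_self Φ volume u, hΦ1, mul_one]

/-- One of the two sums. -/
theorem series1 (c : ℕ → ℂ) (hc : ∀ n, ‖c n‖ ≤ 1) (a : ℂ) (ha : 0 < a.re) (Cb : ℝ) (hCb : 0 < Cb)
    (hQ : ∀ x : ℝ, 0 ≤ x → ‖qg a x‖ ≤ Cb * Real.exp (-(x / 2)))
    (q ρ : ℝ) (hq : 1 < q) (hρ : 0 < ρ) (hρ1 : ρ ≤ 1 / 100) (Φ : ℝ → ℝ) (hΦ : Continuous Φ)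
    (hΦc : HasCompactSupport Φ) (hΦn : ∀ x, 0 ≤ Φ x)
    (hΦ0 : ∀ x, 1 ≤ |x| → Φ x = 0) (hΦ1 : ∫ x, Φ x = 1) :
    ∃ R : ℝ → ℂ, Integrable R ∧
      (∀ ξ, R ξ = (∑' n : ℕ, c n * KK a q ρ ((Real.log ((n : ℝ) + 1) / Real.log q - 1 / 2) / ρ - ξ)) *
        (Φ ξ : ℂ)) ∧
    ‖(∫ ξ, R ξ) - (∑' n : ℕ, c n * GG a q ρ Φ (Real.log ((n : ℝ) + 1) / Real.log q))‖ ≤
      Cb * Real.exp (-(Real.pi * q ^ (4 * ρ) / 4)) * (2 * q ^ 2) *
        ∑' n : ℕ, 1 / ((n : ℝ) + 1) ^ 2 := by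
  have hq0 : 0 < q := by linarith
  obtain ⟨u, hu⟩ : ∃ u : ℕ → ℝ, u = fun n : ℕ =>
    (Real.log ((n : ℝ) + 1) / Real.log q - 1 / 2) / ρ := ⟨_, rfl⟩
  have hu' : ∀ n : ℕ, (Real.log ((n : ℝ) + 1) / Real.log q - 1 / 2) / ρ = u n := by
    intro n
    rw [hu]
  simp only [hu']
  have hn : ∀ n : ℕ, (0 : ℝ) < (n : ℝ) + 1 := fun n => by positivity
  obtain ⟨F, hF⟩ : ∃ F : ℕ → ℝ → ℂ, F = fun n ξ => c n * KK a q ρ (u n - ξ) * (Φ ξ : ℂ) :=
    ⟨_, rfl⟩
  have hFc : ∀ n, Continuous (F n) := by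
    intro n
    rw [hF]
    exact (continuous_const.mul ((KK_cont a ha q ρ hq0).comp
      (continuous_const.sub continuous_id))).mul (Complex.continuous_ofReal.comp hΦ)
  have b1 : ∀ n ξ, ‖F n ξ‖ ≤ Cb * (q ^ 2 / ((n : ℝ) + 1) ^ 2) * Φ ξ := by
    intro n ξ
    rw [hF]
    simp only
    rw [norm_mul, norm_mul, Complex.norm_real, Real.norm_eq_abs, abs_of_nonneg (hΦn ξ)]
    by_cases h : 1 ≤ |ξ|
    · rw [hΦ0 ξ h, mul_zero, mul_zero]
    · refine mul_le_mul_of_nonneg_right ?_ (hΦn ξ)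
      push Not at h
      rw [abs_lt] at h
      have h1 : ‖KK a q ρ (u n - ξ)‖ ≤ Cb * (q ^ 2 / ((n : ℝ) + 1) ^ 2) := by
        refine (KK_bound a Cb hQ q ρ hq0 (u n - ξ)).trans ?_
        refine mul_le_mul_of_nonneg_left ?_ hCb.le
        have e0 := pw q ρ hq hρ ((n : ℝ) + 1) (hn n) ξ
        rw [hu' n] at e0
        have x3 : ((n : ℝ) + 1) ^ 2 / q ^ 2 ≤ q ^ (2 * ρ * (u n - ξ)) := by
          rw [e0]
          have h4 : q ^ (-1 : ℝ) ≤ q ^ (-(2 * ρ * ξ)) :=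
            Real.rpow_le_rpow_of_exponent_le hq.le (by nlinarith)
          rw [Real.rpow_neg_one] at h4
          have h5 : ((n : ℝ) + 1) ^ 2 / q ^ 2 = ((n : ℝ) + 1) ^ 2 * q⁻¹ / q := by
            field_simp
          rw [h5]
          gcongr
        have hX : 0 < ((n : ℝ) + 1) ^ 2 / q ^ 2 := by have := hn n; positivity
        have h6 : Real.exp (-(Real.pi * q ^ (2 * ρ * (u n - ξ)) / 2)) ≤
            Real.exp (-(((n : ℝ) + 1) ^ 2 / q ^ 2)) := by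
          refine Real.exp_le_exp.2 ?_
          have h7 := Real.pi_gt_three
          have h8 : 0 < q ^ (2 * ρ * (u n - ξ)) := by positivity
          nlinarith
        refine h6.trans ((exp_le _ hX).trans (le_of_eq ?_))
        rw [one_div_div]
      calc ‖c n‖ * ‖KK a q ρ (u n - ξ)‖ ≤ 1 * (Cb * (q ^ 2 / ((n : ℝ) + 1) ^ 2)) :=
            mul_le_mul (hc n) h1 (norm_nonneg _) zero_le_one
        _ = _ := one_mul _
  have hsum1 : ∀ M : ℝ, Summable fun n : ℕ => Cb * (q ^ 2 / ((n : ℝ) + 1) ^ 2) * M := by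
    intro M
    have h1 := summable_sq.mul_left (Cb * q ^ 2 * M)
    refine h1.congr fun n => ?_
    ring
  have hΦi : Integrable Φ := hΦ.integrable_of_hasCompactSupport hΦc
  obtain ⟨M, hM⟩ := hΦc.exists_bound_of_continuous hΦ
  obtain ⟨R, hR⟩ : ∃ R : ℝ → ℂ, R = fun ξ => ∑' n, F n ξ := ⟨_, rfl⟩
  have hRc : Continuous R := by
    rw [hR]
    refine continuous_tsum hFc (hsum1 M) fun n ξ => (b1 n ξ).trans ?_
    refine mul_le_mul_of_nonneg_left ?_ (by positivity)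
    exact (le_abs_self _).trans (hM ξ)
  have hF0 : ∀ n ξ, 1 ≤ |ξ| → F n ξ = 0 := by
    intro n ξ h
    rw [hF]
    simp only
    rw [hΦ0 ξ h, Complex.ofReal_zero, mul_zero]
  have hcsupp : ∀ f : ℝ → ℂ, (∀ ξ, 1 ≤ |ξ| → f ξ = 0) → HasCompactSupport f := by
    intro f hf
    refine HasCompactSupport.intro (isCompact_Icc (a := (-1 : ℝ)) (b := 1)) fun z hz => hf z ?_
    by_contra h
    push Not at h
    rw [abs_lt] at h
    exact hz ⟨by linarith, by linarith⟩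
  have hR0 : ∀ ξ, 1 ≤ |ξ| → R ξ = 0 := by
    intro ξ h
    rw [hR]
    simp only
    rw [tsum_congr (fun n => hF0 n ξ h), tsum_zero]
  have hRi : Integrable R := hRc.integrable_of_hasCompactSupport (hcsupp R hR0)
  have hFi : ∀ n, Integrable (F n) := fun n =>
    (hFc n).integrable_of_hasCompactSupport (hcsupp (F n) (hF0 n))
  have hFs : Summable fun n => ∫ ξ, ‖F n ξ‖ := by
    refine Summable.of_nonneg_of_le (fun n => integral_nonneg fun _ => norm_nonneg _)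
      (fun n => ?_) (hsum1 1)
    calc ∫ ξ, ‖F n ξ‖ ≤ ∫ ξ, Cb * (q ^ 2 / ((n : ℝ) + 1) ^ 2) * Φ ξ :=
          integral_mono (hFi n).norm (hΦi.const_mul _) (b1 n)
      _ = Cb * (q ^ 2 / ((n : ℝ) + 1) ^ 2) * 1 := by rw [integral_const_mul, hΦ1]
  have hA : HasSum (fun n => ∫ ξ, F n ξ) (∫ ξ, R ξ) := by
    rw [hR]
    exact hasSum_integral_of_summable_integral_norm hFi hFs
  obtain ⟨A, hAd⟩ : ∃ A, A = ∫ ξ, R ξ := ⟨_, rfl⟩
  rw [← hAd] at hA
  -- the integral of the functional equation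
  have hRe : ∀ ξ, R ξ = (∑' n, c n * KK a q ρ (u n - ξ)) * (Φ ξ : ℂ) := by
    intro ξ
    rw [hR, hF]
    simp only
    rw [tsum_mul_right]
  refine ⟨R, hRi, hRe, ?_⟩
  -- the terms
  have hW : ∀ n, ∫ ξ, F n ξ = c n * ∫ z, KK a q ρ z * (Φ (u n - z) : ℂ) := by
    intro n
    have h1 : ∫ ξ, F n ξ = c n * ∫ ξ, KK a q ρ (u n - ξ) * (Φ ξ : ℂ) := by
      rw [← integral_const_mul, hF]
      simp only [mul_assoc]
    rw [h1, ← integral_sub_left_eq_self (fun z => KK a q ρ z * (Φ (u n - z) : ℂ)) volume (u n)]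
    simp only [sub_sub_cancel]
  obtain ⟨E, hE⟩ : ∃ E, E = Cb * Real.exp (-(Real.pi * q ^ (4 * ρ) / 4)) * (2 * q ^ 2) := ⟨_, rfl⟩
  have hEp : 0 < E := by rw [hE]; positivity
  rw [← hE]
  obtain ⟨g, hg⟩ : ∃ g : ℕ → ℂ, g = fun n : ℕ =>
    GG a q ρ Φ (Real.log ((n : ℝ) + 1) / Real.log q) := ⟨_, rfl⟩
  have hg' : ∀ n : ℕ, GG a q ρ Φ (Real.log ((n : ℝ) + 1) / Real.log q) = g n := by
    intro n
    rw [hg]
  simp only [hg']
  have hD : ∀ n, ‖(∫ ξ, F n ξ) - c n * g n‖ ≤ E * (1 / ((n : ℝ) + 1) ^ 2) := by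
    intro n
    rw [hW, ← mul_sub, norm_mul]
    have h1 := diff_bound a ha Cb hCb hQ q ρ hq hρ hρ1 Φ hΦ hΦc hΦn hΦ0 hΦ1 ((n : ℝ) + 1) (hn n)
    have h2 : (∫ z, Kt a q ρ z *
        (Φ ((Real.log ((n : ℝ) + 1) / Real.log q - 1 / 2) / ρ - z) : ℂ)) = g n := by
      rw [hg]
      rfl
    rw [h2] at h1
    rw [hu' n] at h1
    have h3 : Cb * (Real.exp (-(Real.pi * q ^ (4 * ρ) / 4)) * (2 * q ^ 2 / ((n : ℝ) + 1) ^ 2)) =
        E * (1 / ((n : ℝ) + 1) ^ 2) := by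
      rw [hE]
      ring
    rw [h3] at h1
    calc _ ≤ 1 * (E * (1 / ((n : ℝ) + 1) ^ 2)) :=
          mul_le_mul (hc n) h1 (norm_nonneg _) zero_le_one
      _ = _ := one_mul _
  have hDs : Summable fun n => (∫ ξ, F n ξ) - c n * g n :=
    Summable.of_norm_bounded (summable_sq.mul_left E) hD
  have hDn : ‖∑' n, ((∫ ξ, F n ξ) - c n * g n)‖ ≤ E * ∑' n : ℕ, 1 / ((n : ℝ) + 1) ^ 2 := by
    refine tsum_of_norm_bounded ?_ hD
    exact (summable_sq.hasSum).mul_left E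
  have hB : HasSum (fun n => c n * g n) (A - ∑' n, ((∫ ξ, F n ξ) - c n * g n)) := by
    have h1 := hA.sub hDs.hasSum
    refine h1.congr_fun ?_
    intro n
    ring
  obtain ⟨D, hDd⟩ : ∃ D, D = ∑' n, ((∫ ξ, F n ξ) - c n * g n) := ⟨_, rfl⟩
  rw [← hDd] at hB hDn
  rw [hB.tsum_eq, ← hAd, sub_sub_cancel]
  exact hDn

end Pool.Agent.Y739.R11
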