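import Pool.Agent.Y766.R11.Stm
import Pool.Agent.Y739.R11.A

/-!
# The approximate functional equation at `s` with smooth weights in `log n / log q`

Project R11 of helper766, job AFS (by helper739), after `Pool.Agent.Y500.R10` (helper500).
-/

set_option autoImplicit false

namespace Pool.Agent.Y739.R11

open MeasureTheory Set Filter Topology
open Pool.Agent.Y500.R10
open Pool.Agent.Y766.R10 (QG WG)
open Pool.Agent.Y766.R11

theorem wg_mono {B B' : ℝ} {G : ℝ → ℂ} (h : WG' B G) (hB : B ≤ B') : WG B' G :=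
  ⟨h.smooth, fun v => (h.b0 v).trans hB, fun v => (h.b1 v).trans hB, fun v => (h.b2 v).trans hB⟩

theorem conj_natCast_cpow (n : ℕ) (z : ℂ) :
    (starRingEnd ℂ) ((n : ℂ) ^ z) = (n : ℂ) ^ ((starRingEnd ℂ) z) := by
  rw [← Complex.conj_natCast n, Complex.conj_cpow _ _ (by rw [Complex.natCast_arg]; exact
    Real.pi_ne_zero.symm), Complex.conj_natCast]
  simp

/-- sums over `n ≤ q` -/
theorem sum_eq (q : ℕ) (hqr : (1 : ℝ) < q) (ρ : ℝ) (hρ : 0 < ρ) (hρ1 : ρ ≤ 1 / 100) (G : ℝ → ℂ)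
    (hG : ∀ v, 1 / 2 + 3 * ρ ≤ v → G v = 0) (c : ℕ → ℂ) (f : ℕ → ℂ)
    (hf : ∀ n, f (n + 1) = G (Real.log ((n : ℝ) + 1) / Real.log q) * c n) :
    ∑ n ∈ Finset.Icc 1 q, f n = ∑' n : ℕ, c n * G (Real.log ((n : ℝ) + 1) / Real.log q) := by
  have hqp : (0 : ℝ) < q := by linarith
  rw [tsum_eq_sum (s := Finset.range q)]
  · have h1 : Finset.Icc 1 q = (Finset.range q).image (fun n => n + 1) := by
      ext n
      rw [Finset.mem_Icc, Finset.mem_image]
      constructor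
      · rintro ⟨h2, h3⟩
        exact ⟨n - 1, Finset.mem_range.2 (by omega), by omega⟩
      · rintro ⟨m, h2, rfl⟩
        rw [Finset.mem_range] at h2
        omega
    rw [h1, Finset.sum_image (fun x _ y _ hxy => Nat.succ_injective hxy)]
    refine Finset.sum_congr rfl fun n _ => ?_
    rw [hf, mul_comm]
  · intro n hn
    rw [Finset.mem_range, not_lt] at hn
    rw [hG, mul_zero]
    have h2 : (1 : ℝ) ≤ Real.log ((n : ℝ) + 1) / Real.log q := by
      rw [le_div_iff₀ (Real.log_pos hqr), one_mul]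
      refine Real.log_le_log hqp ?_
      have : (q : ℝ) ≤ n := by exact_mod_cast hn
      linarith
    linarith

theorem afs (h : S_AFG) : S_AFS := by
  intro T Λ ρ hΛ hρ hρ1
  obtain ⟨M, hM1, hM⟩ := gamma_bd T
  obtain ⟨Cb, hCb, hQ⟩ := qg_bd T
  obtain ⟨Φ, hΦs, hΦc, hΦe, hΦn, hΦ0, hΦ1⟩ := exists_phi
  have hΦ : Continuous Φ := hΦs.continuous
  have hΨs : ContDiff ℝ ((⊤ : ℕ∞) : WithTop ℕ∞) (fun x => (Φ x : ℂ)) :=
    Complex.ofRealCLM.contDiff.comp hΦs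
  have hΨc : HasCompactSupport (fun x => (Φ x : ℂ)) := hΦc.comp_left Complex.ofReal_zero
  have hpi : (3 : ℝ) < Real.pi := Real.pi_gt_three
  have hM0 : 0 < M := by linarith
  obtain ⟨C0, hC0, hWG⟩ := conv_WG _ hΨs hΨc ρ hρ (Cb * (1 + Real.pi * M ^ 2)) (by positivity)
  obtain ⟨Z, hZ⟩ : ∃ Z, Z = ∑' n : ℕ, 1 / ((n : ℝ) + 1) ^ 2 := ⟨_, rfl⟩
  have hZ0 : 0 ≤ Z := by
    rw [hZ]
    exact tsum_nonneg fun n => by positivity
  obtain ⟨q₁, hq₁⟩ := growth ρ (2 * (1 + M ^ 2) * Cb * Z) hρ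
  refine ⟨C0 + 8 * M * Real.pi, max (max 4 q₁) (Real.exp (12 * Λ)), by positivity, ?_⟩
  intro q _ hq a ha s hs
  obtain ⟨hs1, hs2, hs3⟩ := hs
  have hq4 : (4 : ℝ) ≤ q := (le_max_left _ _).trans ((le_max_left _ _).trans hq)
  have hq1 : q₁ ≤ q := (le_max_right _ _).trans ((le_max_left _ _).trans hq)
  have hqe : Real.exp (12 * Λ) ≤ q := (le_max_right _ _).trans hq
  have hqr : (1 : ℝ) < q := by linarith
  have hqn : 1 < q := by exact_mod_cast hqr
  have hqp : (0 : ℝ) < q := by linarith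
  have hlog : 12 * Λ ≤ Real.log q := by
    rw [← Real.log_exp (12 * Λ)]
    exact Real.log_le_log (Real.exp_pos _) hqe
  have hlogp : 0 < Real.log q := by linarith
  have hΛq : Λ / Real.log q ≤ 1 / 12 := by
    rw [div_le_iff₀ hlogp]
    linarith
  have hsr : 5 / 12 ≤ s.re := by linarith
  have ha0 : (0 : ℝ) ≤ a := Nat.cast_nonneg a
  have ha1 : (a : ℝ) ≤ 1 := by exact_mod_cast ha
  obtain ⟨b1, hb1⟩ : ∃ b : ℂ, b = (s + a) / 2 := ⟨_, rfl⟩
  obtain ⟨b2, hb2⟩ : ∃ b : ℂ, b = (1 - s + a) / 2 := ⟨_, rfl⟩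
  have r1 : b1.re = (s.re + a) / 2 := by
    rw [hb1, show (s + a) / 2 = (s + a) * ((1 / 2 : ℝ) : ℂ) by push_cast; ring,
      Complex.re_mul_ofReal]
    simp
    ring
  have i1 : b1.im = s.im / 2 := by
    rw [hb1, show (s + a) / 2 = (s + a) * ((1 / 2 : ℝ) : ℂ) by push_cast; ring,
      Complex.im_mul_ofReal]
    simp
    ring
  have r2 : b2.re = (1 - s.re + a) / 2 := by
    rw [hb2, show (1 - s + a) / 2 = (1 - s + a) * ((1 / 2 : ℝ) : ℂ) by push_cast; ring,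
      Complex.re_mul_ofReal]
    simp
    ring
  have i2 : b2.im = -s.im / 2 := by
    rw [hb2, show (1 - s + a) / 2 = (1 - s + a) * ((1 / 2 : ℝ) : ℂ) by push_cast; ring,
      Complex.im_mul_ofReal]
    simp
    ring
  have hT := abs_le.1 hs3
  have hT0 : 0 ≤ T := (abs_nonneg _).trans hs3
  have p1 : 5 / 24 ≤ b1.re := by rw [r1]; linarith
  have p1' : b1.re ≤ 1 := by rw [r1]; linarith
  have p1'' : 1 / 8 ≤ b1.re := by linarith
  have p1i : |b1.im| ≤ T := by rw [i1, abs_le]; constructor <;> linarith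
  have p2 : 1 / 8 ≤ b2.re := by rw [r2]; linarith
  have p2' : b2.re ≤ 1 := by rw [r2]; linarith
  have p2i : |b2.im| ≤ T := by rw [i2, abs_le]; constructor <;> linarith
  have b1p : 0 < b1.re := by linarith
  have b2p : 0 < b2.re := by linarith
  obtain ⟨κ₀, hκ₀⟩ : ∃ κ : ℂ, κ = (Real.pi : ℂ) ^ (s - 1 / 2) *
    (Complex.Gamma b2 / Complex.Gamma b1) := ⟨_, rfl⟩
  have hGq : ‖Complex.Gamma b2 / Complex.Gamma b1‖ ≤ M ^ 2 := by
    rw [div_eq_mul_inv, norm_mul, sq]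
    exact mul_le_mul (hM b2 p2 p2' p2i).1 (hM b1 p1'' p1' p1i).2 (norm_nonneg _) hM0.le
  have hκ₀n : ‖κ₀‖ ≤ Real.pi * M ^ 2 := by
    rw [hκ₀, norm_mul, Complex.norm_cpow_eq_rpow_re_of_pos Real.pi_pos]
    have e1 : (s - 1 / 2).re ≤ 1 := by
      have : (s - 1 / 2).re = s.re - 1 / 2 := by simp
      rw [this]
      linarith
    have e2 : Real.pi ^ (s - 1 / 2).re ≤ Real.pi := by
      calc Real.pi ^ (s - 1 / 2).re ≤ Real.pi ^ (1 : ℝ) :=
            Real.rpow_le_rpow_of_exponent_le (by linarith) e1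
        _ = Real.pi := Real.rpow_one _
    exact mul_le_mul e2 hGq (norm_nonneg _) Real.pi_pos.le
  have hQ1 := hQ b1 p1'' p1' p1i
  have hQ2 := hQ b2 p2 p2' p2i
  refine ⟨GG b1 q ρ Φ, fun v => (starRingEnd ℂ) (κ₀ * GG b2 q ρ Φ v), ?_, ?_, ?_, ?_, ?_⟩
  · refine wg_mono (hWG (Kt b1 q ρ) (Kt_loc b1 b1p q ρ hqp) fun z => ?_) (by
      have : 0 ≤ 8 * M * Real.pi := by positivity
      linarith)
    refine (Kt_bound b1 Cb hCb hQ1 q ρ hqp z).trans ?_
    have : 0 ≤ Cb * (Real.pi * M ^ 2) := by positivity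
    linarith
  · obtain ⟨k, hk⟩ : ∃ k : ℝ → ℂ, k = fun z => (starRingEnd ℂ) (κ₀ * Kt b2 q ρ z) := ⟨_, rfl⟩
    have hki : k = (Iic (2 : ℝ)).indicator (fun z => (starRingEnd ℂ) (κ₀ * KK b2 q ρ z)) := by
      rw [hk]
      funext z
      unfold Kt
      by_cases h : z ∈ Iic (2 : ℝ)
      · rw [indicator_of_mem h, indicator_of_mem h]
      · rw [indicator_of_notMem h, indicator_of_notMem h, mul_zero, map_zero]
    have hkl : LocallyIntegrable k := by
      rw [hki]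
      refine Continuous.locallyIntegrable ?_ |>.indicator measurableSet_Iic
      exact Complex.continuous_conj.comp (continuous_const.mul (KK_cont b2 b2p q ρ hqp))
    have hkb : ∀ z, ‖k z‖ ≤ Cb * (1 + Real.pi * M ^ 2) := by
      intro z
      rw [hk]
      simp only
      rw [RCLike.norm_conj, norm_mul]
      have h1 := mul_le_mul hκ₀n (Kt_bound b2 Cb hCb hQ2 q ρ hqp z) (norm_nonneg _)
        (by positivity : 0 ≤ Real.pi * M ^ 2)
      linarith
    have he : (fun v => (starRingEnd ℂ) (κ₀ * GG b2 q ρ Φ v)) =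
        fun v => ∫ z, k z * (Φ ((v - 1 / 2) / ρ - z) : ℂ) := by
      funext v
      unfold GG
      rw [← integral_const_mul, ← integral_conj]
      congr 1
      funext z
      rw [hk]
      simp only
      rw [← mul_assoc, map_mul, Complex.conj_ofReal]
    rw [he]
    refine wg_mono (hWG k hkl hkb) (by
      have : 0 ≤ 8 * M * Real.pi := by positivity
      linarith)
  · intro v hv
    refine ⟨GG_zero b1 q ρ hρ Φ hΦ0 v hv, ?_⟩
    simp only
    rw [GG_zero b2 q ρ hρ Φ hΦ0 v hv, mul_zero, map_zero]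
  · intro v hv
    have hε : ∀ z, |(v - 1 / 2) / ρ - z| < 1 →
        ‖KK b1 q ρ z - 1‖ ≤ 8 * M * Real.pi * (q : ℝ) ^ (-(1 / 10) : ℝ) := by
      intro z hz
      rw [abs_lt] at hz
      have hz2 : 2 * ρ * z ≤ -(12 / 25) := by
        have h1 : z < (v - 1 / 2) / ρ + 1 := by linarith
        have h2 : ρ * z ≤ (v - 1 / 2) + ρ := by
          calc ρ * z ≤ ρ * ((v - 1 / 2) / ρ + 1) := by gcongr
            _ = (v - 1 / 2) + ρ := by field_simp
        linarith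
      unfold KK
      refine (qg_sub_one b1 p1'' M (hM b1 p1'' p1' p1i).2 _ (by positivity)).trans ?_
      rw [mul_assoc (8 * M)]
      refine mul_le_mul_of_nonneg_left ?_ (by positivity)
      rw [Real.mul_rpow Real.pi_pos.le (by positivity), ← Real.rpow_mul hqp.le]
      have e1 : Real.pi ^ b1.re ≤ Real.pi := by
        calc Real.pi ^ b1.re ≤ Real.pi ^ (1 : ℝ) :=
              Real.rpow_le_rpow_of_exponent_le (by linarith) p1'
          _ = Real.pi := Real.rpow_one _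
      have e2 : (q : ℝ) ^ (2 * ρ * z * b1.re) ≤ (q : ℝ) ^ (-(1 / 10) : ℝ) := by
        refine Real.rpow_le_rpow_of_exponent_le hqr.le ?_
        nlinarith
      exact mul_le_mul e1 e2 (by positivity) Real.pi_pos.le
    refine (GG_near b1 b1p q ρ hqr hρ hρ1 v hv _ hε Φ hΦ hΦc hΦn hΦ0 hΦ1).trans ?_
    refine mul_le_mul_of_nonneg_right ?_ (by positivity)
    linarith
  · intro χ hχ hχa
    obtain ⟨w, hw, hAFG⟩ := h q hqn χ hχ a ha hχa
    refine ⟨w, hw, ?_⟩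
    obtain ⟨c, hcd⟩ : ∃ c : ℕ → ℂ, c = fun n : ℕ => χ ((n + 1 : ℕ) : ZMod q) *
      ((n + 1 : ℕ) : ℂ) ^ (-s) := ⟨_, rfl⟩
    obtain ⟨d, hdd⟩ : ∃ d : ℕ → ℂ, d = fun n : ℕ =>
      (starRingEnd ℂ) (χ ((n + 1 : ℕ) : ZMod q)) * ((n + 1 : ℕ) : ℂ) ^ (-(1 - s)) := ⟨_, rfl⟩
    have hn1 : ∀ n : ℕ, (1 : ℝ) ≤ ((n + 1 : ℕ) : ℝ) := by
      intro n
      push_cast
      linarith [Nat.cast_nonneg (α := ℝ) n]
    have hc : ∀ n, ‖c n‖ ≤ 1 := by
      intro n
      rw [hcd]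
      simp only
      rw [norm_mul, Complex.norm_natCast_cpow_of_pos (Nat.succ_pos n)]
      have h1 : (-s).re ≤ 0 := by rw [Complex.neg_re]; linarith
      exact mul_le_one₀ (DirichletCharacter.norm_le_one χ _) (by positivity)
        (Real.rpow_le_one_of_one_le_of_nonpos (hn1 n) h1)
    have hd : ∀ n, ‖d n‖ ≤ 1 := by
      intro n
      rw [hdd]
      simp only
      rw [norm_mul, Complex.norm_natCast_cpow_of_pos (Nat.succ_pos n), RCLike.norm_conj]
      have h1 : (-(1 - s)).re ≤ 0 := by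
        rw [Complex.neg_re, Complex.sub_re, Complex.one_re]
        linarith
      exact mul_le_one₀ (DirichletCharacter.norm_le_one χ _) (by positivity)
        (Real.rpow_le_one_of_one_le_of_nonpos (hn1 n) h1)
    obtain ⟨R1, hR1i, hR1, hR1n⟩ := series1 c hc b1 b1p Cb hCb hQ1 q ρ hqr hρ hρ1 Φ hΦ hΦc hΦn
      hΦ0 hΦ1
    obtain ⟨R2, hR2i, hR2, hR2n⟩ := series1 d hd b2 b2p Cb hCb hQ2 q ρ hqr hρ hρ1 Φ hΦ hΦc hΦn
      hΦ0 hΦ1
    rw [← hZ] at hR1n hR2n
    obtain ⟨κ, hκ⟩ : ∃ κ : ℂ, κ = w * (((q : ℝ) / Real.pi : ℝ) : ℂ) ^ (1 / 2 - s) *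
      (Complex.Gamma b2 / Complex.Gamma b1) := ⟨_, rfl⟩
    have hκn : ‖κ‖ ≤ q * M ^ 2 := by
      have hqpi : 1 ≤ (q : ℝ) / Real.pi := by
        rw [le_div_iff₀ Real.pi_pos]
        linarith [Real.pi_le_four]
      rw [hκ, norm_mul, norm_mul, hw, one_mul,
        Complex.norm_cpow_eq_rpow_re_of_pos (by linarith)]
      have e1 : (1 / 2 - s).re ≤ 1 := by
        have : (1 / 2 - s).re = 1 / 2 - s.re := by simp
        rw [this]
        linarith
      have e2 : ((q : ℝ) / Real.pi) ^ (1 / 2 - s).re ≤ q := by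
        calc ((q : ℝ) / Real.pi) ^ (1 / 2 - s).re ≤ ((q : ℝ) / Real.pi) ^ (1 : ℝ) :=
              Real.rpow_le_rpow_of_exponent_le hqpi e1
          _ = q / Real.pi := Real.rpow_one _
          _ ≤ q := div_le_self hqp.le (by linarith)
      exact mul_le_mul e2 hGq (norm_nonneg _) hqp.le
    have hL : ∀ ξ : ℝ, χ.LFunction s * (Φ ξ : ℂ) = R1 ξ + κ * R2 (-ξ) := by
      intro ξ
      have e0 := hAFG s (by linarith) (by linarith) ((q : ℝ) ^ (-(2 * ρ * ξ))) (by positivity)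
      rw [← hb1, ← hb2] at e0
      have e1 : ∀ n : ℕ, QG b1
          (Real.pi * ((n : ℝ) + 1) ^ 2 * (q : ℝ) ^ (-(2 * ρ * ξ)) / q) =
          KK b1 q ρ ((Real.log ((n : ℝ) + 1) / Real.log q - 1 / 2) / ρ - ξ) := by
        intro n
        unfold KK
        rw [pw q ρ hqr hρ ((n : ℝ) + 1) (by positivity) ξ]
        have e2 : Real.pi * ((n : ℝ) + 1) ^ 2 * (q : ℝ) ^ (-(2 * ρ * ξ)) / q =
            Real.pi * (((n : ℝ) + 1) ^ 2 * (q : ℝ) ^ (-(2 * ρ * ξ)) / q) := by ring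
        rw [e2]
        rfl
      have e3 : ∀ n : ℕ, QG b2
          (Real.pi * ((n : ℝ) + 1) ^ 2 / ((q : ℝ) ^ (-(2 * ρ * ξ)) * q)) =
          KK b2 q ρ ((Real.log ((n : ℝ) + 1) / Real.log q - 1 / 2) / ρ - -ξ) := by
        intro n
        unfold KK
        rw [pw q ρ hqr hρ ((n : ℝ) + 1) (by positivity) (-ξ)]
        have e2 : Real.pi * ((n : ℝ) + 1) ^ 2 / ((q : ℝ) ^ (-(2 * ρ * ξ)) * q) =
            Real.pi * (((n : ℝ) + 1) ^ 2 * (q : ℝ) ^ (-(2 * ρ * -ξ)) / q) := by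
          have e4 : (q : ℝ) ^ (-(2 * ρ * -ξ)) = ((q : ℝ) ^ (-(2 * ρ * ξ)))⁻¹ := by
            rw [← Real.rpow_neg hqp.le]
            congr 1
            ring
          rw [e4]
          field_simp
        rw [e2]
        rfl
      simp only [e1, e3] at e0
      rw [← hκ] at e0
      rw [hR1, hR2, hΦe, hcd, hdd]
      simp only
      rw [e0]
      ring
    obtain ⟨A1, hA1⟩ : ∃ A, A = ∫ ξ, R1 ξ := ⟨_, rfl⟩
    obtain ⟨A2, hA2⟩ : ∃ A, A = ∫ ξ, R2 ξ := ⟨_, rfl⟩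
    rw [← hA1] at hR1n
    rw [← hA2] at hR2n
    have hLA : χ.LFunction s = A1 + κ * A2 := by
      have h1 : ∫ ξ, χ.LFunction s * (Φ ξ : ℂ) = χ.LFunction s := by
        rw [integral_const_mul, integral_complex_ofReal, hΦ1, Complex.ofReal_one, mul_one]
      have h2 : ∫ ξ, (R1 ξ + κ * R2 (-ξ)) = A1 + κ * A2 := by
        have i2 : Integrable fun ξ => R2 (-ξ) := hR2i.comp_neg
        rw [integral_add hR1i (i2.const_mul κ), integral_const_mul,
          integral_neg_eq_self R2 volume, ← hA1, ← hA2]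
      rw [← h1, ← h2]
      exact integral_congr_ae (Eventually.of_forall hL)
    have hAA1 : AS χ (GG b1 q ρ Φ) s =
        ∑' n : ℕ, c n * GG b1 q ρ Φ (Real.log ((n : ℝ) + 1) / Real.log q) := by
      unfold AS
      refine sum_eq q hqr ρ hρ hρ1 _ (fun v hv => GG_zero b1 q ρ hρ Φ hΦ0 v hv) c _ fun n => ?_
      rw [hcd]
      simp only
      push_cast
      rfl
    have hAA2 : (starRingEnd ℂ) (AS χ (fun v => (starRingEnd ℂ) (κ₀ * GG b2 q ρ Φ v))
        (1 - (starRingEnd ℂ) s)) =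
        κ₀ * ∑' n : ℕ, d n * GG b2 q ρ Φ (Real.log ((n : ℝ) + 1) / Real.log q) := by
      rw [← sum_eq q hqr ρ hρ hρ1 _ (fun v hv => GG_zero b2 q ρ hρ Φ hΦ0 v hv) d
        (fun n => GG b2 q ρ Φ (Real.log n / Real.log q) *
          ((starRingEnd ℂ) (χ (n : ZMod q)) * (n : ℂ) ^ (-(1 - s)))) (fun n => by
          rw [hdd]
          simp only
          push_cast
          rfl)]
      unfold AS
      rw [map_sum, Finset.mul_sum]
      refine Finset.sum_congr rfl fun n _ => ?_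
      rw [map_mul, map_mul, Complex.conj_conj, conj_natCast_cpow]
      have e1 : (starRingEnd ℂ) (-(1 - (starRingEnd ℂ) s)) = -(1 - s) := by
        rw [map_neg, map_sub, Complex.conj_conj, map_one]
      rw [e1]
      ring
    have hκκ : w * (q : ℂ) ^ (1 / 2 - s) * κ₀ = κ := by
      have e1 : (q : ℂ) ^ (1 / 2 - s) = (((q : ℝ) / Real.pi : ℝ) : ℂ) ^ (1 / 2 - s) *
          (Real.pi : ℂ) ^ (1 / 2 - s) := by
        rw [← Complex.mul_cpow_ofReal_nonneg (by positivity) Real.pi_pos.le, ← Complex.ofReal_mul,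
          div_mul_cancel₀ _ Real.pi_ne_zero, Complex.ofReal_natCast]
      have e2 : (Real.pi : ℂ) ^ (1 / 2 - s) * (Real.pi : ℂ) ^ (s - 1 / 2) = 1 := by
        rw [← Complex.cpow_add _ _ (by exact_mod_cast Real.pi_ne_zero)]
        have : (1 / 2 - s) + (s - 1 / 2) = 0 := by ring
        rw [this, Complex.cpow_zero]
      rw [hκ, hκ₀, e1]
      calc _ = w * (((q : ℝ) / Real.pi : ℝ) : ℂ) ^ (1 / 2 - s) *
            ((Real.pi : ℂ) ^ (1 / 2 - s) * (Real.pi : ℂ) ^ (s - 1 / 2)) *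
            (Complex.Gamma b2 / Complex.Gamma b1) := by ring
        _ = _ := by rw [e2, mul_one]
    rw [hAA2, hAA1, ← mul_assoc, hκκ, hLA]
    obtain ⟨B1, hB1⟩ : ∃ B, B = ∑' n : ℕ, c n * GG b1 q ρ Φ
      (Real.log ((n : ℝ) + 1) / Real.log q) := ⟨_, rfl⟩
    obtain ⟨B2, hB2⟩ : ∃ B, B = ∑' n : ℕ, d n * GG b2 q ρ Φ
      (Real.log ((n : ℝ) + 1) / Real.log q) := ⟨_, rfl⟩
    rw [← hB1] at hR1n ⊢
    rw [← hB2] at hR2n ⊢
    have e5 : A1 + κ * A2 - (B1 + κ * B2) = (A1 - B1) + κ * (A2 - B2) := by ring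
    rw [e5]
    obtain ⟨E, hE⟩ : ∃ E, E = Cb * Real.exp (-(Real.pi * (q : ℝ) ^ (4 * ρ) / 4)) *
      (2 * (q : ℝ) ^ 2) * Z := ⟨_, rfl⟩
    have hE0 : 0 ≤ E := by
      rw [hE]
      positivity
    rw [← hE] at hR1n hR2n
    have hg := hq₁ q hq1
    rw [le_div_iff₀ hqp]
    have hn : ‖(A1 - B1) + κ * (A2 - B2)‖ ≤ q * (1 + M ^ 2) * E := by
      calc ‖(A1 - B1) + κ * (A2 - B2)‖ ≤ ‖A1 - B1‖ + ‖κ‖ * ‖A2 - B2‖ :=
            (norm_add_le _ _).trans (by rw [norm_mul])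
        _ ≤ E + (q * M ^ 2) * E :=
            add_le_add hR1n (mul_le_mul hκn hR2n (norm_nonneg _) (by positivity))
        _ ≤ q * E + (q * M ^ 2) * E := by nlinarith
        _ = _ := by ring
    calc ‖(A1 - B1) + κ * (A2 - B2)‖ * q ≤ q * (1 + M ^ 2) * E * q :=
          mul_le_mul_of_nonneg_right hn hqp.le
      _ = 2 * (1 + M ^ 2) * Cb * Z * (q : ℝ) ^ 4 *
          Real.exp (-(Real.pi * (q : ℝ) ^ (4 * ρ) / 4)) := by
          rw [hE]
          ring
      _ ≤ 1 := hg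

end Pool.Agent.Y739.R11
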